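import Pool.Agent.W78.GC.Defs
import Pool.Agent.W822.GA.Momp

/-! Project GC (helper78), task GC-2 (helper12): the mean values of the coloured sums `Gc`. -/

set_option autoImplicit false

namespace Pool.Agent.W12.GC

open Finset Filter
open Pool.Agent.H376R2.MR Pool.Agent.W78.GA Pool.Agent.W78.GC
open Pool.Agent.W822.GA (bg_ne coef_norm card_ball_le)

variable {t c : ℤ}

open scoped Classical in
lemma Gc_filter (col : Qd t c → Prop) (Z : ℝ) (k : ℤ) :
    Gc col Z k =
      DPG ((cball col (Real.exp 1 * Z)).filter (fun z => bg Z z ≠ 0))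
      (fun z => (gl z : ℂ) * (bg Z z : ℂ)) k := by
  unfold Gc DPG
  rw [Finset.sum_filter_of_ne]
  intro n _ hn h0
  apply hn
  simp only [h0]
  simp

lemma mem_cball (hD : t ^ 2 < 4 * c) {col : Qd t c → Prop} {X : ℝ} {z : Qd t c} :
    z ∈ cball col X ↔ prim z ∧ (nm z : ℝ) ≤ X ∧ col z := by
  classical
  unfold cball
  rw [mem_filter, mem_pball hD]
  tauto

theorem mom0c (hD : t ^ 2 < 4 * c) (hls : S_LS t c) (hlat : S_LAT t c) (col : Qd t c → Prop) :
    S_MOM0C col := by
  classical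
  obtain ⟨C, hC, hls⟩ := hls
  obtain ⟨C', hC', hcard⟩ := card_ball_le hlat
  set e := Real.exp 1 with he
  have he0 : 0 < e := Real.exp_pos 1
  have he1 : 1 ≤ e := Real.one_le_exp zero_le_one
  refine ⟨C * C' * e ^ 4, by positivity, ?_⟩
  intro K Z hZ hK
  have hZ0 : 0 < Z := by linarith
  have heZ : 1 ≤ e * Z := by nlinarith
  set s := (cball col (e * Z)).filter (fun z => bg Z z ≠ 0) with hs
  have hmem : ∀ z ∈ s, prim z ∧ Z / e ≤ (nm z : ℝ) ∧ (nm z : ℝ) ≤ e * Z := by
    intro z hz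
    rw [hs, Finset.mem_filter, mem_cball hD] at hz
    obtain ⟨h0, h1, h2⟩ := bg_ne hz.2
    have hpos : (0 : ℝ) < nm z := by exact_mod_cast h0
    refine ⟨hz.1.1, ?_, hz.1.2.1⟩
    rw [← Real.log_le_log_iff (by positivity) hpos, Real.log_div hZ0.ne' he0.ne', he,
      Real.log_exp]
    exact h1
  have hm := hls (e * Z) K s (fun z => (gl z : ℂ) * (bg Z z : ℂ)) heZ hK
    fun z hz => ⟨(hmem z hz).1, (hmem z hz).2.2⟩
  have htcard : (s.card : ℝ) ≤ C' * (e * Z) := by
    refine le_trans ?_ (hcard (e * Z) heZ)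
    have : s.card ≤ (ball t c (e * Z)).card := by
      calc s.card ≤ (cball col (e * Z)).card := Finset.card_filter_le _ _
        _ ≤ (pball t c (e * Z)).card := by
          unfold cball
          exact Finset.card_filter_le _ _
        _ ≤ (ball t c (e * Z)).card := by
          unfold pball
          exact Finset.card_filter_le _ _
    exact_mod_cast this
  have hsum : ∑ z ∈ s, ‖(gl z : ℂ) * (bg Z z : ℂ)‖ ^ 2 ≤ C' * (e * Z) * (e / Z) ^ 2 := by
    calc ∑ z ∈ s, ‖(gl z : ℂ) * (bg Z z : ℂ)‖ ^ 2 ≤ ∑ _z ∈ s, (e / Z) ^ 2 := by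
          apply Finset.sum_le_sum
          intro z hz
          have hn1 := (hmem z hz).2.1
          have hze : 0 < Z / e := by positivity
          have hnpos : (0 : ℝ) < nm z := by linarith
          have hinv : 1 / (nm z : ℝ) ≤ e / Z := by
            rw [div_le_div_iff₀ hnpos hZ0, one_mul]
            rw [div_le_iff₀ he0] at hn1
            linarith
          calc ‖(gl z : ℂ) * (bg Z z : ℂ)‖ ^ 2 ≤ (1 / (nm z : ℝ)) ^ 2 := by
                gcongr
                exact coef_norm Z z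
            _ ≤ (e / Z) ^ 2 := by gcongr
      _ = s.card * (e / Z) ^ 2 := by rw [Finset.sum_const, nsmul_eq_mul]
      _ ≤ C' * (e * Z) * (e / Z) ^ 2 := by gcongr
  calc ∑ k ∈ FK K, ‖Gc col Z k‖ ^ 2
      = ∑ k ∈ FK K, ‖DPG s (fun z => (gl z : ℂ) * (bg Z z : ℂ)) k‖ ^ 2 := by
        apply Finset.sum_congr rfl
        intro k _
        rw [Gc_filter, hs]
    _ ≤ _ := hm
    _ ≤ C * (K + e * Z) * (C' * (e * Z) * (e / Z) ^ 2) := by gcongr
    _ = C * C' * e ^ 3 * (e + K / Z) := by
        field_simp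
        ring
    _ ≤ C * C' * e ^ 3 * (e + e * (K / Z)) := by
        gcongr
        have : (0 : ℝ) ≤ K / Z := by positivity
        nlinarith
    _ = C * C' * e ^ 4 * (1 + K / Z) := by ring

end Pool.Agent.W12.GC
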