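import Pool.Agent.W78.GC.Defs

/-! Project GC (helper78), task GC-3 (helper12): the recursion for the colour `col1`. -/

set_option autoImplicit false

namespace Pool.Agent.W12.GC.Rece

open Finset Filter
open Pool.Agent.H376R2.MR Pool.Agent.W78.GA Pool.Agent.W78.GC

variable {t c : ℤ}

lemma hD4 : (0 : ℤ) ^ 2 < 4 * 4 := by norm_num

lemma hD1 : (0 : ℤ) ^ 2 < 4 * 1 := by norm_num

lemma mem_cball' (hD : t ^ 2 < 4 * c) {col : Qd t c → Prop} {X : ℝ} {z : Qd t c} :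
    z ∈ cball col X ↔ prim z ∧ (nm z : ℝ) ≤ X ∧ col z := by
  classical
  unfold cball
  rw [mem_filter, mem_pball hD]
  tauto

lemma prim_cop {z : Qd t c} : prim z ↔ IsCoprime z.re z.im := by
  unfold prim
  exact (Int.isCoprime_iff_gcd_eq_one).symm

lemma cop_two {a : ℤ} (h : a % 2 = 1) : IsCoprime 2 a := by
  refine ⟨-(a / 2), 1, ?_⟩
  omega

lemma cop_two' {a : ℤ} (h : IsCoprime 2 a) : a % 2 = 1 := by
  by_contra hne
  have h2 : (2 : ℤ) ∣ a := by omega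
  have h3 : IsUnit (2 : ℤ) := h.isUnit_of_dvd' dvd_rfl h2
  rw [Int.isUnit_iff] at h3
  omega

/-- `gcd (u - v, u + v) = 1` iff `gcd (u, v) = 1` when `u + v` is odd -/
lemma cop_sub_add {u v : ℤ} (h : (u + v) % 2 = 1) : IsCoprime (u - v) (u + v) ↔ IsCoprime u v := by
  constructor
  · rintro ⟨a, b, hab⟩
    exact ⟨a + b, b - a, by linear_combination hab⟩
  · rintro ⟨a, b, hab⟩
    obtain ⟨m, hm⟩ : ∃ m, u + v = 2 * m + 1 := ⟨(u + v) / 2, by omega⟩
    refine ⟨-m * (a - b), 1 - m * (a + b), ?_⟩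
    linear_combination hm - 2 * m * hab

lemma bg_scale {t' c' : ℤ} {Y : ℝ} (hY : 0 < Y) {N : ℕ} (hN : 1 ≤ N) {z : Qd t' c'} {w' : Qd t c}
    (h : nm z = N * nm w') (hw : 0 < nm w') :
    bg Y z = 1 / (N : ℝ) * bg (Y / N) w' := by
  unfold bg
  have hN0 : (0 : ℝ) < N := by exact_mod_cast hN
  have hw0 : (0 : ℝ) < nm w' := by exact_mod_cast hw
  rw [h]
  push_cast
  rw [Real.log_mul hN0.ne' hw0.ne', Real.log_div hY.ne' hN0.ne']
  have e : Real.log N + Real.log (nm w') - Real.log Y =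
    Real.log (nm w') - (Real.log Y - Real.log N) := by ring
  rw [e]
  field_simp

lemma ps_scale {t' c' : ℤ} {z : Qd t' c'} {w' : Qd t c} {α : ℂ} (h : tc z = α * tc w') (k : ℤ) :
    ps k z = (α / ((‖α‖ : ℝ) : ℂ)) ^ k * ps k w' := by
  unfold ps
  rw [h, ← mul_zpow, norm_mul]
  congr 1
  push_cast
  rw [div_mul_div_comm]

lemma gl_scale {t' c' : ℤ} {z : Qd t' c'} {w' : Qd t c} {N : ℕ} (hN : 1 ≤ N)
    (h : nm z = N * nm w') (hw : 0 < nm w') : gl z = lam N * gl w' := by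
  unfold gl
  rw [h, lam_mul (by omega) hw.ne']

/-- the contribution of a class -/
lemma part {Y : ℝ} (hY : 0 < Y) (k : ℤ) (φ : Qd 0 1 → Qd 0 4) {N : ℕ} (hN : 1 ≤ N) {α : ℂ}
    (htc : ∀ w', tc (φ w') = α * tc w') (hnm : ∀ w', nm (φ w') = N * nm w')
    (hφ : Function.Injective φ) {S : Finset (Qd 0 4)}
    (hS : ∀ z, z ∈ S ↔ ∃ w' ∈ cball col1 (Real.exp 1 * (Y / N)), φ w' = z) :
    ∑ z ∈ S, (gl z : ℂ) * (bg Y z : ℂ) * ps k z =
      (lam N : ℂ) / N * (α / ((‖α‖ : ℝ) : ℂ)) ^ k * Gc col1 (Y / N) k := by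
  unfold Gc DPG
  rw [Finset.mul_sum]
  symm
  refine Finset.sum_bij (fun w' _ => φ w') ?_ ?_ ?_ ?_
  · intro w' hw'
    exact (hS _).2 ⟨w', hw', rfl⟩
  · intro a _ b _ h
    exact hφ h
  · intro z hz
    obtain ⟨w', hw', h⟩ := (hS z).1 hz
    exact ⟨w', hw', h⟩
  · intro w' hw'
    have h1 := (mem_cball' hD1).1 hw'
    have h2 : 0 < nm w' := nm_pos hD1 (prim_ne_zero h1.1)
    rw [gl_scale hN (hnm w') h2, bg_scale hY hN (hnm w') h2, ps_scale (htc w') k]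
    push_cast
    ring

lemma nm4 (z : Qd 0 4) : (nm z : ℤ) = z.re ^ 2 + 4 * z.im ^ 2 := by
  rw [nm_cast hD4]; ring

lemma nm1 (z : Qd 0 1) : (nm z : ℤ) = z.re ^ 2 + z.im ^ 2 := by
  rw [nm_cast hD1]; ring

lemma sqrt16 : Real.sqrt (4 * ((4 : ℤ) : ℝ) - ((0 : ℤ) : ℝ) ^ 2) = 4 := by
  have : (4 * ((4 : ℤ) : ℝ) - ((0 : ℤ) : ℝ) ^ 2) = 4 ^ 2 := by push_cast; norm_num
  rw [this, Real.sqrt_sq (by norm_num)]

lemma sqrt4 : Real.sqrt (4 * ((1 : ℤ) : ℝ) - ((0 : ℤ) : ℝ) ^ 2) = 2 := by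
  have : (4 * ((1 : ℤ) : ℝ) - ((0 : ℤ) : ℝ) ^ 2) = 2 ^ 2 := by push_cast; norm_num
  rw [this, Real.sqrt_sq (by norm_num)]

lemma tc4 (z : Qd 0 4) : tc z = (z.re : ℂ) + 2 * (z.im : ℂ) * Complex.I := by
  apply Complex.ext
  · rw [tc_re]; simp
  · rw [tc_im, sqrt16]; simp; ring

lemma tc1 (z : Qd 0 1) : tc z = (z.re : ℂ) + (z.im : ℂ) * Complex.I := by
  apply Complex.ext
  · rw [tc_re]; simp
  · rw [tc_im, sqrt4]; simp

/-- class `x` odd -/
def ψA (z : Qd 0 4) : Qd 0 1 := ⟨z.re, 2 * z.im⟩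

def φ1 (z : Qd 0 1) : Qd 0 4 := ⟨-2 * z.im, z.re⟩

def φ2 (z : Qd 0 1) : Qd 0 4 := ⟨2 * (z.re - z.im), z.re + z.im⟩

def φ3 (z : Qd 0 1) : Qd 0 4 := ⟨-2 * (z.re + z.im), z.re - z.im⟩

lemma partA (Y : ℝ) (k : ℤ) :
    ∑ z ∈ (pball 0 4 (Real.exp 1 * Y)).filter (fun z => z.re % 2 = 1),
      (gl z : ℂ) * (bg Y z : ℂ) * ps k z = Gc col1 Y k := by
  unfold Gc DPG
  have hn : ∀ z : Qd 0 4, nm (ψA z) = nm z := by
    intro z
    have h1 := nm1 (ψA z)
    have h2 := nm4 z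
    have h3 : (nm (ψA z) : ℤ) = nm z := by
      rw [h1, h2]; unfold ψA; ring
    exact_mod_cast h3
  have ht : ∀ z : Qd 0 4, tc (ψA z) = tc z := by
    intro z
    rw [tc1, tc4]
    unfold ψA
    push_cast
    ring
  refine Finset.sum_bij (fun z _ => ψA z) ?_ ?_ ?_ ?_
  · intro z hz
    rw [mem_filter, mem_pball hD4, prim_cop] at hz
    rw [mem_cball' hD1, prim_cop, hn]
    refine ⟨?_, hz.1.2, ?_, ?_⟩
    · show IsCoprime z.re (2 * z.im)
      exact IsCoprime.mul_right (cop_two hz.2).symm hz.1.1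
    · show Odd z.re
      rw [Int.odd_iff]; exact hz.2
    · show Even (2 * z.im)
      exact even_two_mul _
  · intro a _ b _ h
    unfold ψA at h
    rw [QuadraticAlgebra.ext_iff] at h
    apply QuadraticAlgebra.ext
    · exact h.1
    · have := h.2
      simp only at this
      omega
  · intro u hu
    rw [mem_cball' hD1, prim_cop] at hu
    obtain ⟨h1, h2, h3, h4⟩ := hu
    obtain ⟨m, hm⟩ := h4
    have hm' : u.im = 2 * m := by omega
    have e : ψA ⟨u.re, m⟩ = u := by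
      apply QuadraticAlgebra.ext
      · rfl
      · show 2 * m = u.im
        exact hm'.symm
    refine ⟨⟨u.re, m⟩, ?_, e⟩
    rw [mem_filter, mem_pball hD4, prim_cop, ← hn, e]
    refine ⟨⟨?_, h2⟩, ?_⟩
    · show IsCoprime u.re m
      rw [hm'] at h1
      exact (IsCoprime.mul_right_iff.1 h1).2
    · show u.re % 2 = 1
      exact Int.odd_iff.1 h3
  · intro z _
    unfold gl bg ps
    simp only [hn, ht]

lemma lam4 : lam 4 = 1 := by
  have := lam_sq_mul (m := 2) (n := 1) (by norm_num) (by norm_num)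
  norm_num at this
  rw [this]
  unfold lam
  simp

lemma lam8 : lam 8 = -1 := by
  have := lam_sq_mul (m := 2) (n := 2) (by norm_num) (by norm_num)
  norm_num at this
  rw [this, lam_prime Nat.prime_two]

lemma scale_le {Y : ℝ} {N : ℕ} (hN : 1 ≤ N) {z : Qd 0 4} {w' : Qd 0 1}
    (h : nm z = N * nm w') :
    (nm z : ℝ) ≤ Real.exp 1 * Y ↔ (nm w' : ℝ) ≤ Real.exp 1 * (Y / N) := by
  have hN0 : (0 : ℝ) < N := by exact_mod_cast hN
  rw [h]
  push_cast
  rw [← mul_div_assoc, le_div_iff₀ hN0, mul_comm]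

lemma hn1 (w' : Qd 0 1) : nm (φ1 w') = 4 * nm w' := by
  have h1 := nm4 (φ1 w')
  have h2 := nm1 w'
  have h3 : (nm (φ1 w') : ℤ) = ((4 * nm w' : ℕ) : ℤ) := by
    push_cast
    rw [h1, h2]; unfold φ1; ring
  exact_mod_cast h3

lemma hn2 (w' : Qd 0 1) : nm (φ2 w') = 8 * nm w' := by
  have h1 := nm4 (φ2 w')
  have h2 := nm1 w'
  have h3 : (nm (φ2 w') : ℤ) = ((8 * nm w' : ℕ) : ℤ) := by
    push_cast
    rw [h1, h2]; unfold φ2; ring
  exact_mod_cast h3

lemma hn3 (w' : Qd 0 1) : nm (φ3 w') = 8 * nm w' := by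
  have h1 := nm4 (φ3 w')
  have h2 := nm1 w'
  have h3 : (nm (φ3 w') : ℤ) = ((8 * nm w' : ℕ) : ℤ) := by
    push_cast
    rw [h1, h2]; unfold φ3; ring
  exact_mod_cast h3

lemma ht1 (w' : Qd 0 1) : tc (φ1 w') = (2 * Complex.I) * tc w' := by
  rw [tc4, tc1]
  unfold φ1
  push_cast
  linear_combination (-2 * (w'.im : ℂ)) * Complex.I_sq

lemma ht2 (w' : Qd 0 1) : tc (φ2 w') = (2 * (1 + Complex.I)) * tc w' := by
  rw [tc4, tc1]
  unfold φ2
  push_cast
  linear_combination (-2 * (w'.im : ℂ)) * Complex.I_sq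

lemma ht3 (w' : Qd 0 1) : tc (φ3 w') = (2 * (Complex.I - 1)) * tc w' := by
  rw [tc4, tc1]
  unfold φ3
  push_cast
  linear_combination (-2 * (w'.im : ℂ)) * Complex.I_sq

lemma hi1 : Function.Injective φ1 := by
  intro a b h
  unfold φ1 at h
  rw [QuadraticAlgebra.ext_iff] at h
  obtain ⟨h1, h2⟩ := h
  simp only at h1 h2
  apply QuadraticAlgebra.ext <;> omega

lemma hi2 : Function.Injective φ2 := by
  intro a b h
  unfold φ2 at h
  rw [QuadraticAlgebra.ext_iff] at h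
  obtain ⟨h1, h2⟩ := h
  simp only at h1 h2
  apply QuadraticAlgebra.ext <;> omega

lemma hi3 : Function.Injective φ3 := by
  intro a b h
  unfold φ3 at h
  rw [QuadraticAlgebra.ext_iff] at h
  obtain ⟨h1, h2⟩ := h
  simp only at h1 h2
  apply QuadraticAlgebra.ext <;> omega

lemma part1 {Y : ℝ} (hY : 0 < Y) (k : ℤ) :
    ∑ z ∈ (pball 0 4 (Real.exp 1 * Y)).filter (fun z => z.re % 4 = 0),
      (gl z : ℂ) * (bg Y z : ℂ) * ps k z =
      (lam 4 : ℂ) / ((4 : ℕ) : ℂ) * ((2 * Complex.I) / ((‖2 * Complex.I‖ : ℝ) : ℂ)) ^ k *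
        Gc col1 (Y / ((4 : ℕ) : ℝ)) k := by
  refine part hY k φ1 (by norm_num) ht1 hn1 hi1 ?_
  intro z
  rw [mem_filter, mem_pball hD4, prim_cop]
  constructor
  · rintro ⟨⟨h1, h2⟩, h3⟩
    have ho : z.im % 2 = 1 := by
      have h5 : IsCoprime (2 * (z.re / 2)) z.im := by
        have : 2 * (z.re / 2) = z.re := by omega
        rwa [this]
      exact cop_two' (IsCoprime.mul_left_iff.1 h5).1
    have e : φ1 ⟨z.im, -(z.re / 2)⟩ = z := by
      apply QuadraticAlgebra.ext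
      · show -2 * (-(z.re / 2)) = z.re
        omega
      · rfl
    refine ⟨⟨z.im, -(z.re / 2)⟩, ?_, e⟩
    rw [mem_cball' hD1, prim_cop, ← scale_le (z := z) (N := 4) (by norm_num) (by rw [← hn1, e])]
    refine ⟨?_, h2, ?_, ?_⟩
    · show IsCoprime z.im (-(z.re / 2))
      have h5 : IsCoprime (2 * (z.re / 2)) z.im := by
        have : 2 * (z.re / 2) = z.re := by omega
        rwa [this]
      exact ((IsCoprime.mul_left_iff.1 h5).2).symm.neg_right
    · show Odd z.im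
      rw [Int.odd_iff]; exact ho
    · show Even (-(z.re / 2))
      rw [Int.even_iff]
      omega
  · rintro ⟨u, hu, rfl⟩
    rw [mem_cball' hD1, prim_cop] at hu
    obtain ⟨h1, h2, h3, h4⟩ := hu
    rw [scale_le (by norm_num) (hn1 u)]
    rw [Int.odd_iff] at h3
    rw [Int.even_iff] at h4
    refine ⟨⟨?_, h2⟩, ?_⟩
    · show IsCoprime (-2 * u.im) u.re
      have h5 : IsCoprime (2 * u.im) u.re := IsCoprime.mul_left (cop_two h3) h1.symm
      have h6 : -2 * u.im = -(2 * u.im) := by ring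
      rw [h6]
      exact h5.neg_left
    · show (-2 * u.im) % 4 = 0
      omega

lemma part2 {Y : ℝ} (hY : 0 < Y) (k : ℤ) :
    ∑ z ∈ (pball 0 4 (Real.exp 1 * Y)).filter (fun z => z.re % 2 = 0 ∧ (z.re + 2 * z.im) % 8 = 4),
      (gl z : ℂ) * (bg Y z : ℂ) * ps k z =
      (lam 8 : ℂ) / ((8 : ℕ) : ℂ) *
        ((2 * (1 + Complex.I)) / ((‖2 * (1 + Complex.I)‖ : ℝ) : ℂ)) ^ k *
        Gc col1 (Y / ((8 : ℕ) : ℝ)) k := by
  refine part hY k φ2 (by norm_num) ht2 hn2 hi2 ?_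
  intro z
  rw [mem_filter, mem_pball hD4, prim_cop]
  constructor
  · rintro ⟨⟨h1, h2⟩, h3, h4⟩
    have h5 : IsCoprime (2 * (z.re / 2)) z.im := by
      have : 2 * (z.re / 2) = z.re := by omega
      rwa [this]
    have ho : z.im % 2 = 1 := cop_two' (IsCoprime.mul_left_iff.1 h5).1
    obtain ⟨u, hu⟩ : ∃ u, u = (z.re + 2 * z.im) / 4 := ⟨_, rfl⟩
    have hv : 2 * (u - (z.im - u)) = z.re := by omega
    have e : φ2 ⟨u, z.im - u⟩ = z := by
      apply QuadraticAlgebra.ext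
      · exact hv
      · show u + (z.im - u) = z.im
        ring
    refine ⟨⟨u, z.im - u⟩, ?_, e⟩
    rw [mem_cball' hD1, prim_cop, ← scale_le (z := z) (N := 8) (by norm_num) (by rw [← hn2, e])]
    refine ⟨?_, h2, ?_, ?_⟩
    · show IsCoprime u (z.im - u)
      rw [← cop_sub_add (by omega)]
      have e1 : u - (z.im - u) = z.re / 2 := by omega
      have e2 : u + (z.im - u) = z.im := by ring
      rw [e1, e2]
      exact (IsCoprime.mul_left_iff.1 h5).2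
    · show Odd u
      rw [Int.odd_iff]; omega
    · show Even (z.im - u)
      rw [Int.even_iff]
      omega
  · rintro ⟨u, hu, rfl⟩
    rw [mem_cball' hD1, prim_cop] at hu
    obtain ⟨h1, h2, h3, h4⟩ := hu
    rw [scale_le (by norm_num) (hn2 u)]
    rw [Int.odd_iff] at h3
    rw [Int.even_iff] at h4
    refine ⟨⟨?_, h2⟩, ?_, ?_⟩
    · show IsCoprime (2 * (u.re - u.im)) (u.re + u.im)
      refine IsCoprime.mul_left (cop_two (by omega)) ?_
      rw [cop_sub_add (by omega)]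
      exact h1
    · show (2 * (u.re - u.im)) % 2 = 0
      omega
    · show (2 * (u.re - u.im) + 2 * (u.re + u.im)) % 8 = 4
      omega

lemma part3 {Y : ℝ} (hY : 0 < Y) (k : ℤ) :
    ∑ z ∈ (pball 0 4 (Real.exp 1 * Y)).filter (fun z => z.re % 2 = 0 ∧ (z.re + 2 * z.im) % 8 = 0),
      (gl z : ℂ) * (bg Y z : ℂ) * ps k z =
      (lam 8 : ℂ) / ((8 : ℕ) : ℂ) *
        ((2 * (Complex.I - 1)) / ((‖2 * (Complex.I - 1)‖ : ℝ) : ℂ)) ^ k *
        Gc col1 (Y / ((8 : ℕ) : ℝ)) k := by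
  refine part hY k φ3 (by norm_num) ht3 hn3 hi3 ?_
  intro z
  rw [mem_filter, mem_pball hD4, prim_cop]
  constructor
  · rintro ⟨⟨h1, h2⟩, h3, h4⟩
    have h5 : IsCoprime (2 * (z.re / 2)) z.im := by
      have : 2 * (z.re / 2) = z.re := by omega
      rwa [this]
    have ho : z.im % 2 = 1 := cop_two' (IsCoprime.mul_left_iff.1 h5).1
    -- `z.re = -2 (p + q)`, `z.im = p - q`
    obtain ⟨q, hq⟩ : ∃ q, q = -((z.re + 2 * z.im) / 4) := ⟨_, rfl⟩
    have hv : -2 * ((z.im + q) + q) = z.re := by omega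
    have e : φ3 ⟨z.im + q, q⟩ = z := by
      apply QuadraticAlgebra.ext
      · exact hv
      · show z.im + q - q = z.im
        ring
    refine ⟨⟨z.im + q, q⟩, ?_, e⟩
    rw [mem_cball' hD1, prim_cop, ← scale_le (z := z) (N := 8) (by norm_num) (by rw [← hn3, e])]
    refine ⟨?_, h2, ?_, ?_⟩
    · show IsCoprime (z.im + q) q
      rw [← cop_sub_add (by omega)]
      have e1 : z.im + q - q = z.im := by ring
      have e2 : z.im + q + q = -(z.re / 2) := by omega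
      rw [e1, e2]
      exact ((IsCoprime.mul_left_iff.1 h5).2).symm.neg_right
    · show Odd (z.im + q)
      rw [Int.odd_iff]; omega
    · show Even q
      rw [Int.even_iff]
      omega
  · rintro ⟨u, hu, rfl⟩
    rw [mem_cball' hD1, prim_cop] at hu
    obtain ⟨h1, h2, h3, h4⟩ := hu
    rw [scale_le (by norm_num) (hn3 u)]
    rw [Int.odd_iff] at h3
    rw [Int.even_iff] at h4
    refine ⟨⟨?_, h2⟩, ?_, ?_⟩
    · show IsCoprime (-2 * (u.re + u.im)) (u.re - u.im)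
      have h6 : IsCoprime (2 * (u.re + u.im)) (u.re - u.im) := by
        refine IsCoprime.mul_left (cop_two (by omega)) ?_
        exact ((cop_sub_add (by omega)).2 h1).symm
      have h7 : -2 * (u.re + u.im) = -(2 * (u.re + u.im)) := by ring
      rw [h7]
      exact h6.neg_left
    · show (-2 * (u.re + u.im)) % 2 = 0
      omega
    · show (-2 * (u.re + u.im) + 2 * (u.re - u.im)) % 8 = 0
      omega

lemma norm_unit_zpow {α : ℂ} (hα : α ≠ 0) (k : ℤ) : ‖(α / ((‖α‖ : ℝ) : ℂ)) ^ k‖ = 1 := by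
  rw [norm_zpow, norm_div, Complex.norm_real, norm_norm, div_self (norm_ne_zero_iff.2 hα), one_zpow]

lemma split {S : Finset (Qd 0 4)} (hS : ∀ z ∈ S, prim z) (F : Qd 0 4 → ℂ) :
    ∑ z ∈ S, F z = ∑ z ∈ S.filter (fun z => z.re % 2 = 1), F z +
      ∑ z ∈ S.filter (fun z => z.re % 4 = 0), F z +
      ∑ z ∈ S.filter (fun z => z.re % 2 = 0 ∧ (z.re + 2 * z.im) % 8 = 4), F z +
      ∑ z ∈ S.filter (fun z => z.re % 2 = 0 ∧ (z.re + 2 * z.im) % 8 = 0), F z := by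
  rw [Finset.sum_filter, Finset.sum_filter, Finset.sum_filter, Finset.sum_filter,
    ← Finset.sum_add_distrib, ← Finset.sum_add_distrib, ← Finset.sum_add_distrib]
  refine Finset.sum_congr rfl fun z hz => ?_
  have h1 := prim_cop.1 (hS z hz)
  by_cases h2 : z.re % 2 = 1
  · rw [if_pos h2, if_neg (by omega), if_neg (by omega), if_neg (by omega)]
    ring
  · have h5 : IsCoprime (2 * (z.re / 2)) z.im := by
      have : 2 * (z.re / 2) = z.re := by omega
      rwa [this]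
    have ho : z.im % 2 = 1 := cop_two' (IsCoprime.mul_left_iff.1 h5).1
    rw [if_neg h2]
    by_cases h3 : z.re % 4 = 0
    · rw [if_pos h3, if_neg (by omega), if_neg (by omega)]
      ring
    · rw [if_neg h3]
      by_cases h4 : (z.re + 2 * z.im) % 8 = 4
      · rw [if_pos (by omega), if_neg (by omega)]
        ring
      · rw [if_neg (by omega), if_pos (by omega)]
        ring

theorem rece : S_RECE := by
  intro Y k hY
  have h0 : Pool.Agent.W78.GA.GG 0 4 Y k = Gc col1 Y k +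
      (lam 4 : ℂ) / ((4 : ℕ) : ℂ) * ((2 * Complex.I) / ((‖2 * Complex.I‖ : ℝ) : ℂ)) ^ k *
        Gc col1 (Y / ((4 : ℕ) : ℝ)) k +
      (lam 8 : ℂ) / ((8 : ℕ) : ℂ) *
        ((2 * (1 + Complex.I)) / ((‖2 * (1 + Complex.I)‖ : ℝ) : ℂ)) ^ k *
        Gc col1 (Y / ((8 : ℕ) : ℝ)) k +
      (lam 8 : ℂ) / ((8 : ℕ) : ℂ) *
        ((2 * (Complex.I - 1)) / ((‖2 * (Complex.I - 1)‖ : ℝ) : ℂ)) ^ k *
        Gc col1 (Y / ((8 : ℕ) : ℝ)) k := by
    rw [← partA Y k, ← part1 hY k, ← part2 hY k, ← part3 hY k]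
    unfold Pool.Agent.W78.GA.GG DPG
    exact split (fun z hz => ((mem_pball hD4).1 hz).1) _
  rw [lam4, lam8] at h0
  push_cast at h0
  have ha : (2 * Complex.I) ≠ 0 := by simp
  have hb : (2 * (1 + Complex.I)) ≠ 0 := by
    intro h
    have := congrArg Complex.re h
    simp at this
  have hc : (2 * (Complex.I - 1)) ≠ 0 := by
    intro h
    have := congrArg Complex.re h
    simp at this
  have na := norm_unit_zpow ha k
  have nb := norm_unit_zpow hb k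
  have nc := norm_unit_zpow hc k
  generalize ((2 * Complex.I) / ((‖2 * Complex.I‖ : ℝ) : ℂ)) ^ k = A at h0 na
  generalize ((2 * (1 + Complex.I)) / ((‖2 * (1 + Complex.I)‖ : ℝ) : ℂ)) ^ k = B at h0 nb
  generalize ((2 * (Complex.I - 1)) / ((‖2 * (Complex.I - 1)‖ : ℝ) : ℂ)) ^ k = D at h0 nc
  generalize Gc col1 (Y / 4) k = G4 at h0 ⊢
  generalize Gc col1 (Y / 8) k = G8 at h0 ⊢
  have h1 : Gc col1 Y k = Pool.Agent.W78.GA.GG 0 4 Y k - 1 / 4 * (A * G4) + 1 / 8 * (B * G8) + 1 / 8 * (D * G8) := by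
    rw [h0]
    ring
  rw [h1]
  have e1 : ‖(1 / 4 : ℂ) * (A * G4)‖ = 1 / 4 * ‖G4‖ := by
    rw [norm_mul, norm_mul, na]
    norm_num
  have e2 : ‖(1 / 8 : ℂ) * (B * G8)‖ = 1 / 8 * ‖G8‖ := by
    rw [norm_mul, norm_mul, nb]
    norm_num
  have e3 : ‖(1 / 8 : ℂ) * (D * G8)‖ = 1 / 8 * ‖G8‖ := by
    rw [norm_mul, norm_mul, nc]
    norm_num
  calc ‖Pool.Agent.W78.GA.GG 0 4 Y k - 1 / 4 * (A * G4) + 1 / 8 * (B * G8) + 1 / 8 * (D * G8)‖
      ≤ ‖Pool.Agent.W78.GA.GG 0 4 Y k‖ + ‖(1 / 4 : ℂ) * (A * G4)‖ + ‖(1 / 8 : ℂ) * (B * G8)‖ +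
        ‖(1 / 8 : ℂ) * (D * G8)‖ := by
        refine (norm_add_le _ _).trans ?_
        gcongr
        refine (norm_add_le _ _).trans ?_
        gcongr
        exact norm_sub_le _ _
    _ = ‖Pool.Agent.W78.GA.GG 0 4 Y k‖ + 1 / 4 * ‖G4‖ + 1 / 4 * ‖G8‖ := by
        rw [e1, e2, e3]
        ring

end Pool.Agent.W12.GC.Rece
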